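import Mathlib
import Pool.Agent.helper37.NA.Spec

/-!
# NFE (MP_baa4d7_al, theorem NA): the blocks of `nz E`, `E ≤ R₁`
-/

set_option autoImplicit false

namespace Pool.Agent.NAB

open Pool.Agent.helper58.DC Pool.Agent.DI Pool.Agent.GR Pool.Agent.OB Pool.Agent.DR Pool.Agent.FI Pool.Agent.FI3 Pool.Agent.FI4 Pool.Agent.FI4I Pool.Agent.LE Pool.Agent.L5

theorem NFE_cjS {G : Type} [Group G] {E : Subgroup G} {h : G} : h ∈ nz E ↔ cjS h E = E := by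
  constructor
  · intro hh
    have h1 := Subgroup.mem_normalizer_iff.1 hh
    ext x
    rw [mem_cjS]
    have e1 : h * (h⁻¹ * x * h) * h⁻¹ = x := by group
    have h2 := h1 (h⁻¹ * x * h)
    rw [e1] at h2
    exact h2
  · intro hh
    refine Subgroup.mem_normalizer_iff.2 fun y => ?_
    have e1 : h⁻¹ * (h * y * h⁻¹) * h = y := by group
    constructor
    · intro hy
      have h2 : h * y * h⁻¹ ∈ cjS h E := by
        rw [mem_cjS, e1]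
        exact hy
      rw [hh] at h2
      exact h2
    · intro hy
      have h2 : h * y * h⁻¹ ∈ cjS h E := by
        rw [hh]
        exact hy
      rw [mem_cjS, e1] at h2
      exact h2

theorem NFE_nz {G : Type} [Group G] {P N : Subgroup G} (hNP : N ≤ nz P) {n : G} (hn : n ∈ N)
    (x : G) : n * x * n⁻¹ ∈ cz P ↔ x ∈ cz P := by
  have h1 := Subgroup.mem_normalizer_iff.1 (hNP hn)
  rw [Subgroup.mem_centralizer_iff, Subgroup.mem_centralizer_iff]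
  constructor
  · intro h y hy
    have h2 := h (n * y * n⁻¹) ((h1 y).1 hy)
    have h3 : n * (y * x) * n⁻¹ = n * (x * y) * n⁻¹ := by
      have e1 : n * (y * x) * n⁻¹ = n * y * n⁻¹ * (n * x * n⁻¹) := by group
      have e2 : n * (x * y) * n⁻¹ = n * x * n⁻¹ * (n * y * n⁻¹) := by group
      rw [e1, e2, h2]
    exact mul_left_cancel (mul_right_cancel h3)
  · intro h y hy
    have h4 : n⁻¹ * y * n ∈ P := by
      rw [h1]
      have e1 : n * (n⁻¹ * y * n) * n⁻¹ = y := by group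
      rw [e1]
      exact hy
    have h2 := h (n⁻¹ * y * n) h4
    have e1 : y * (n * x * n⁻¹) = n * (n⁻¹ * y * n * x) * n⁻¹ := by group
    have e2 : n * x * n⁻¹ * y = n * (x * (n⁻¹ * y * n)) * n⁻¹ := by group
    rw [e1, e2, h2]

theorem NFE (hNEG : NEG_stmt) (hNUH : NUH_stmt) (hNUG : NUG_stmt) (hNUD : NUD_stmt) (hNUE : NUE_stmt) (hNUB : NUB_stmt) (hNFV : NFV_stmt) (hNOB : NOB_stmt) (hNFS : NFS_stmt) (hDGL : DGL_stmt) (hCNTL : CNTL_stmt) (hCFA : CFA_stmt) (hTRN : Pool.Agent.FI.TRN_stmt) (hCJG : CJG_stmt) (hTPR : Pool.Agent.FI.TPR_stmt) : NFE_stmt := by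
  intro p e m M hM hme G _ _ χ hχ z x hU R₁ hR₁ hcomm hRn hER ψ₁ hψ₁ hψχ hU₁
  obtain ⟨-, -, hKH⟩ := hNFS p e m M hM hme G R₁ ψ₁ hψ₁ z x hU₁ hER
  have hEg : ∀ g y : G, Eg p e (g * y * g⁻¹) = cjS g (Eg p e y) := fun g y => (hNEG p e hM.pr G y).1 g
  have hRK : R₁ ≤ cz R₁ := by
    intro r hr
    rw [Subgroup.mem_centralizer_iff]
    intro s hs
    exact hcomm s hs r hr
  have hψH : ∀ y, y ∉ nz (Eg p e z) → ψ₁ y = 0 := fun y hy => hψ₁.1 y fun h => hy (hKH h)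
  ext φ
  constructor
  · rintro ⟨hφ, hφψ⟩
    have hφχ : SB M (⊤ : Subgroup G) φ χ :=
      ((hTRN G M (nz (Eg p e z)) ⊤ le_top φ ψ₁ χ hφ.1 hψH hφψ).2).1 hψχ
    obtain ⟨l, -, hUl⟩ := hNUH p e m M hM G ⊤ (nz (Eg p e z)) le_top φ hφ χ z x hφχ hU
    obtain ⟨-, D', y, hD', hzD', hzc, -⟩ := hNUD p e m M hM G (cz R₁) ψ₁ hψ₁ z x hU₁
    have hRD : R₁ ≤ D' := by
      obtain ⟨k, hk, hkr⟩ := hCNTL p M hM G (cz R₁) R₁ hR₁ hRK ψ₁ (by rw [inf_idem]; exact hψ₁) ψ₁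
        (SB.refl _ _) D' y hD'
      intro r hr
      have h1 := hkr r hr
      have h2 := Subgroup.mem_centralizer_iff.1 hk r hr
      have h3 : k * r * k⁻¹ = r := by
        rw [← h2]
        group
      rwa [h3] at h1
    have hcz : cz D' ≤ cz R₁ := Subgroup.centralizer_le hRD
    have hD'K : D' ≤ cz R₁ := hD'.le.trans inf_le_left
    have e1 : cz R₁ ⊓ cz D' = cz D' := inf_eq_right.mpr hcz
    have e2 : nz (Eg p e z) ⊓ cz D' = cz D' := inf_eq_right.mpr (hcz.trans hKH)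
    obtain ⟨θ, hθ, hθψ⟩ := hDGL p M hM G (cz R₁) ψ₁ hψ₁ D' y hD'
    have hθφ : SB M (nz (Eg p e z)) θ φ :=
      ((hTRN G M (cz R₁) (nz (Eg p e z)) hKH θ ψ₁ φ (fun w hw => hθ.1 w fun h => hw (Subgroup.mem_inf.1 h).1)
        hψ₁.1 hθψ).2).1 hφψ.symm
    rw [e1, ← e2] at hθ
    obtain ⟨h, hh, hhE⟩ := hNUG p e m M hM hme G (nz (Eg p e z)) D' hD'.pg (hD'K.trans hKH) φ hφ θ hθ hθφ z hzD' hU.od
      (l * z * l⁻¹) (l * x * l⁻¹) hUl
    refine ⟨hφ, hφχ, l * z * l⁻¹, l * x * l⁻¹, hUl, ?_⟩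
    rw [hhE]
    exact NFE_cjS.1 hh
  · rintro ⟨hφ, hφχ, z', x', hU', hE'⟩
    refine ⟨hφ, ?_⟩
    have hnK : (⊤ : Subgroup G) ≤ nz (cz R₁) := by
      intro g _
      refine Subgroup.mem_normalizer_iff.2 fun w => ?_
      exact (NFE_nz (N := (⊤ : Subgroup G)) (by rw [hRn]) (Subgroup.mem_top g) w).symm
    obtain ⟨ψ', hψ', n, hn, hover⟩ := (hCFA G (cz R₁) (nz (Eg p e z)) hKH (le_top.trans hnK)).1 φ hφ
    have e1 : nz (Eg p e z) ⊓ cz R₁ = cz R₁ := inf_eq_right.mpr hKH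
    have hφψ' : SB M (nz (Eg p e z)) φ ψ' := by
      refine hNFV p M hM G R₁ (nz (Eg p e z)) hR₁ (hRK.trans hKH) (by rw [hRn]; exact le_top) φ hφ ψ' ?_ n hn ?_
      · rw [e1]
        exact hψ'
      · rw [e1]
        exact hover
    have hψ'H : ∀ y, y ∉ nz (Eg p e z) → ψ' y = 0 := fun y hy => hψ'.1 y fun h => hy (hKH h)
    obtain ⟨h, hh, hUh⟩ := hNUH p e m M hM G (nz (Eg p e z)) (cz R₁) hKH ψ' hψ' φ z' x' hφψ'.symm hU'
    have hEh : Eg p e (h * z' * h⁻¹) = Eg p e z := by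
      rw [hEg, hE']
      exact NFE_cjS.1 hh
    have hφψ'T : SB M (⊤ : Subgroup G) φ ψ' :=
      (hTRN G M (nz (Eg p e z)) ⊤ le_top φ ψ' ψ' hφ.1 hψ'H hφψ').1
    have hψψ' : SB M (⊤ : Subgroup G) ψ₁ ψ' := (hψχ.trans hφχ.symm).trans hφψ'T
    obtain ⟨g, -, hg⟩ := hNOB p M hM G (cz R₁) ⊤ le_top hnK ψ₁ hψ₁ ψ' hψ' hψψ'
    have hgK : cjS g (cz R₁) = cz R₁ := NFE_cjS.1 (hnK (Subgroup.mem_top g))
    have hUg := (hNUB p e m M hM G (cz R₁) ψ' _ _ hUh).2.1 g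
    rw [hgK] at hUg
    have hUg' := (hNUB p e m M hM G (cz R₁) (cjF g ψ') _ _ hUg).1 ψ₁ hg
    obtain ⟨k, hk, hkE⟩ := hNUE p e m M hM hme G (cz R₁) ψ₁ hψ₁ z x _ _ hU₁ hUg'
    rw [hEg, hEh, NFE_cjS.1 (hKH hk)] at hkE
    have hgH : g ∈ nz (Eg p e z) := NFE_cjS.2 hkE
    have h1 : SB M (nz (Eg p e z)) (cjF g ψ') ψ' := ((hCJG G M p g (nz (Eg p e z))).2.2.2.2.2.1 hgH ψ').1
    have hgψ' : cjF g ψ' ∈ IrrOn (cz R₁) := by
      have h2 := (hCJG G M p g (cz R₁)).1 ψ' hψ'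
      have h3 : (cz R₁).map (MulAut.conj g).toMonoidHom = cz R₁ := hgK
      rw [h3] at h2
      exact h2
    have h2 : SB M (nz (Eg p e z)) (cjF g ψ') ψ₁ :=
      (hTRN G M (cz R₁) (nz (Eg p e z)) hKH (cjF g ψ') ψ₁ ψ₁ hgψ'.1 hψ₁.1 hg).1
    exact (hφψ'.trans h1.symm).trans h2

end Pool.Agent.NAB
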