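import Mathlib
import Pool.Agent.helper37.NA.Spec

/-!
# NFV (MP_baa4d7_al, theorem NA): relative form of FOV (port of FOV3 of helper10, helper58)
-/

set_option autoImplicit false

namespace Pool.Agent.NAB

open Pool.Agent.helper58.DC Pool.Agent.DI Pool.Agent.GR Pool.Agent.OB Pool.Agent.DR Pool.Agent.FI Pool.Agent.FI3 Pool.Agent.FI4 Pool.Agent.FI4I Pool.Agent.LE Pool.Agent.L5

theorem NFV_nz {G : Type} [Group G] {P N : Subgroup G} (hNP : N ≤ nz P) {n : G} (hn : n ∈ N)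
    (x : G) : n * x * n⁻¹ ∈ cz P ↔ x ∈ cz P := by
  have h1 := Subgroup.mem_normalizer_iff.1 (hNP hn)
  rw [Subgroup.mem_centralizer_iff, Subgroup.mem_centralizer_iff]
  constructor
  · intro h y hy
    have h2 := h (n * y * n⁻¹) ((h1 y).1 hy)
    have h3 : n * (y * x) * n⁻¹ = n * (x * y) * n⁻¹ := by
      have e1 : n * (y * x) * n⁻¹ = n * y * n⁻¹ * (n * x * n⁻¹) := by group
      have e2 : n * (x * y) * n⁻¹ = n * x * n⁻¹ * (n * y * n⁻¹) := by group
      rw [e1, e2, h2]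
    exact mul_left_cancel (mul_right_cancel h3)
  · intro h y hy
    have h4 : n⁻¹ * y * n ∈ P := by
      rw [h1]
      have e1 : n * (n⁻¹ * y * n) * n⁻¹ = y := by group
      rw [e1]
      exact hy
    have h2 := h (n⁻¹ * y * n) h4
    have e1 : y * (n * x * n⁻¹) = n * (n⁻¹ * y * n * x) * n⁻¹ := by group
    have e2 : n * x * n⁻¹ * y = n * (x * (n⁻¹ * y * n)) * n⁻¹ := by group
    rw [e1, e2, h2]

theorem NFV_memK {G : Type} [Group G] {P N : Subgroup G} (hNP : N ≤ nz P) {n : G} (hn : n ∈ N)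
    (x : G) : n * x * n⁻¹ ∈ N ⊓ cz P ↔ x ∈ N ⊓ cz P := by
  rw [Subgroup.mem_inf, Subgroup.mem_inf, NFV_nz hNP hn]
  have h1 : n * x * n⁻¹ ∈ N ↔ x ∈ N := by
    constructor
    · intro h
      have h2 := N.mul_mem (N.mul_mem (N.inv_mem hn) h) hn
      have e1 : n⁻¹ * (n * x * n⁻¹) * n = x := by group
      rwa [e1] at h2
    · intro h
      exact N.mul_mem (N.mul_mem hn h) (N.inv_mem hn)
  rw [h1]

open Classical in
theorem NFV_cc {G : Type} [Group G] [Fintype G] (ψ z : G → ℂ) :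
    cc ψ z = (∑ x, z x * ψ x) / ψ 1 := by
  unfold cc
  rw [finsum_eq_sum_of_fintype]

theorem NFV_val {G : Type} [Group G] (ψ : G → ℂ) (n x : G) :
    funMap (MulAut.conj n) ψ x = ψ (n⁻¹ * x * n) := by
  unfold funMap
  rw [MulAut.conj_inv_apply]

/-- the restriction of `φ` to `K` as a finite sum over the conjugates -/
theorem NFV_orb {G : Type} [Group G] [Finite G] (N K : Subgroup G) (φ ψ : G → ℂ) (e : ℕ)
    (he : 0 < e) (hover : OverE K N φ ψ e) : ∃ O : Finset (G → ℂ),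
    (∀ x ∈ K, φ x = e * ∑ ψ' ∈ O, ψ' x) ∧ (∀ ψ' ∈ O, ∃ n ∈ N, ψ' = funMap (MulAut.conj n) ψ) ∧
    φ 1 = (e * O.card : ℂ) * ψ 1 ∧ (e * O.card : ℂ) ≠ 0 := by
  classical
  have := Fintype.ofFinite G
  have hO : {ψ' : G → ℂ | ∃ n ∈ N, ψ' = funMap (MulAut.conj n) ψ}.Finite := by
    have h3 : {ψ' : G → ℂ | ∃ n ∈ N, ψ' = funMap (MulAut.conj n) ψ} =
        (fun n : G => funMap (MulAut.conj n) ψ) '' (N : Set G) := by
      ext ψ'
      simp only [Set.mem_ofPred_eq, Set.mem_image, SetLike.mem_coe]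
      constructor
      · rintro ⟨n, hn, rfl⟩
        exact ⟨n, hn, rfl⟩
      · rintro ⟨n, hn, rfl⟩
        exact ⟨n, hn, rfl⟩
    rw [h3]
    exact (Set.toFinite _).image _
  set O := hO.toFinset with hOdef
  have hov : ∀ x ∈ K, φ x = e * ∑ ψ' ∈ O, ψ' x := by
    intro x hx
    rw [hover x hx, finsum_mem_eq_finite_toFinset_sum _ hO]
  have hmemO : ∀ ψ' ∈ O, ∃ n ∈ N, ψ' = funMap (MulAut.conj n) ψ := by
    intro ψ' h
    rw [hOdef, Set.Finite.mem_toFinset] at h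
    exact h
  have hone : ∀ ψ' ∈ O, ψ' 1 = ψ 1 := by
    intro ψ' h
    obtain ⟨n, hn, rfl⟩ := hmemO ψ' h
    rw [NFV_val]
    congr 1
    group
  refine ⟨O, hov, hmemO, ?_, ?_⟩
  · rw [hov 1 (one_mem _), Finset.sum_congr rfl hone, Finset.sum_const, nsmul_eq_mul, mul_assoc]
  · have hOne : O.Nonempty := by
      refine ⟨funMap (MulAut.conj 1) ψ, ?_⟩
      rw [hOdef, Set.Finite.mem_toFinset]
      exact ⟨1, one_mem _, rfl⟩
    have h6 : (e * O.card : ℕ) ≠ 0 := Nat.mul_ne_zero he.ne' hOne.card_pos.ne'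
    exact_mod_cast h6

theorem NFV (hC5a : C5a_stmt) (hC3 : C3_stmt) (hCCJ : CCJ_stmt) (hB2 : B2_stmt) : NFV_stmt := by
  classical
  intro p M hM G _ _ P N hP hPN hNP φ hφ ψ hψ e he hover z hz hzi
  have : Fact p.Prime := ⟨hM.pr⟩
  have := Fintype.ofFinite G
  set z' : G → ℂ := fun x => if x ∈ N ⊓ cz P then z x else 0 with hz'def
  set z'' : G → ℂ := fun x => if x ∈ N ⊓ cz P then 0 else z x with hz''def
  have hinv'' : ∀ l ∈ N, ∀ x, z'' (l * x * l⁻¹) = z'' x := by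
    intro l hl x
    simp only [hz''def, NFV_memK hNP hl, hz.1 l hl x]
  have hinv' : ∀ l ∈ N, ∀ x, z' (l * x * l⁻¹) = z' x := by
    intro l hl x
    simp only [hz'def, NFV_memK hNP hl, hz.1 l hl x]
  obtain ⟨c, hc, hc2⟩ := hC5a G p M hM.max hM.mem P N hPN hNP hP φ hφ z'' hinv''
    (fun x => by
      simp only [hz''def]
      split_ifs
      · exact isIntegral_zero
      · exact hzi x)
    (fun x hx => by
      simp only [hz''def]
      by_cases hxN : x ∈ N
      · rw [if_pos (Subgroup.mem_inf.mpr ⟨hxN, hx⟩)]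
      · rw [if_neg (fun h => hxN (Subgroup.mem_inf.mp h).1)]
        exact hz.2 x hxN)
  rw [sub_zero] at hc2
  refine ⟨c, hc, ?_⟩
  rw [← hc2]
  have h1 : cc φ z = cc φ z'' + cc φ z' := by
    rw [NFV_cc, NFV_cc, NFV_cc, ← add_div, ← Finset.sum_add_distrib]
    congr 1
    refine Finset.sum_congr rfl fun x _ => ?_
    simp only [hz'def, hz''def]
    by_cases hx : x ∈ N ⊓ cz P
    · simp only [if_pos hx]
      ring
    · simp only [if_neg hx]
      ring
  have h2 : cc ψ z = cc ψ z' := by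
    rw [NFV_cc, NFV_cc]
    congr 1
    refine Finset.sum_congr rfl fun x _ => ?_
    simp only [hz'def]
    by_cases hx : x ∈ N ⊓ cz P
    · simp only [if_pos hx]
    · simp only [if_neg hx]
      rw [hψ.1 x hx, mul_zero, mul_zero]
  obtain ⟨O, hov, hmemO, hφ1, hne⟩ := NFV_orb N (N ⊓ cz P) φ ψ e he hover
  have hinner : ∀ ψ' ∈ O, ∑ x, z' x * ψ' x = ∑ x, z' x * ψ x := by
    intro ψ' h
    obtain ⟨n, hn, rfl⟩ := hmemO ψ' h
    refine Fintype.sum_equiv (MulAut.conj n⁻¹).toEquiv _ _ fun x => ?_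
    rw [NFV_val]
    have e1 : (MulAut.conj n⁻¹).toEquiv x = n⁻¹ * x * n := by
      change n⁻¹ * x * (n⁻¹)⁻¹ = _
      rw [inv_inv]
    rw [e1]
    congr 1
    have h5 := hinv' n⁻¹ (N.inv_mem hn) x
    rw [inv_inv] at h5
    exact h5.symm
  have hsum : ∑ x, z' x * φ x = (e * O.card : ℂ) * ∑ x, z' x * ψ x := by
    have e1 : ∀ x, z' x * φ x = (e : ℂ) * ∑ ψ' ∈ O, z' x * ψ' x := by
      intro x
      by_cases hx : x ∈ N ⊓ cz P
      · rw [hov x hx, Finset.mul_sum, Finset.mul_sum, Finset.mul_sum]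
        refine Finset.sum_congr rfl fun ψ' _ => ?_
        ring
      · have e2 : z' x = 0 := by
          simp only [hz'def]
          rw [if_neg hx]
        simp [e2]
    rw [Finset.sum_congr rfl fun x _ => e1 x, ← Finset.mul_sum, Finset.sum_comm,
      Finset.sum_congr rfl hinner, Finset.sum_const, nsmul_eq_mul, mul_assoc]
  have h3 : cc φ z' = cc ψ z' := by
    rw [NFV_cc, NFV_cc, hsum, hφ1, mul_div_mul_left _ _ hne]
  rw [h1, h2, h3]
  ring

end Pool.Agent.NAB
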