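import Mathlib
import Pool.Agent.helper37.NA.Spec

/-!
# NOP (MP_baa4d7_al, theorem NA): a unit class centralises a normal `p`-subgroup
-/

set_option autoImplicit false

namespace Pool.Agent.NAB

open Pool.Agent.helper58.DC Pool.Agent.DI Pool.Agent.GR Pool.Agent.OB Pool.Agent.DR Pool.Agent.FI Pool.Agent.FI3 Pool.Agent.FI4 Pool.Agent.FI4I Pool.Agent.LE Pool.Agent.L5

theorem NOP_nz {G : Type} [Group G] {P N : Subgroup G} (hNP : N ≤ nz P) {n : G} (hn : n ∈ N)
    (x : G) : n * x * n⁻¹ ∈ cz P ↔ x ∈ cz P := by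
  have h1 := Subgroup.mem_normalizer_iff.1 (hNP hn)
  rw [Subgroup.mem_centralizer_iff, Subgroup.mem_centralizer_iff]
  constructor
  · intro h y hy
    have h2 := h (n * y * n⁻¹) ((h1 y).1 hy)
    have h3 : n * (y * x) * n⁻¹ = n * (x * y) * n⁻¹ := by
      have e1 : n * (y * x) * n⁻¹ = n * y * n⁻¹ * (n * x * n⁻¹) := by group
      have e2 : n * (x * y) * n⁻¹ = n * x * n⁻¹ * (n * y * n⁻¹) := by group
      rw [e1, e2, h2]
    exact mul_left_cancel (mul_right_cancel h3)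
  · intro h y hy
    have h4 : n⁻¹ * y * n ∈ P := by
      rw [h1]
      have e1 : n * (n⁻¹ * y * n) * n⁻¹ = y := by group
      rw [e1]
      exact hy
    have h2 := h (n⁻¹ * y * n) h4
    have e1 : y * (n * x * n⁻¹) = n * (n⁻¹ * y * n * x) * n⁻¹ := by group
    have e2 : n * x * n⁻¹ * y = n * (x * (n⁻¹ * y * n)) * n⁻¹ := by group
    rw [e1, e2, h2]

theorem NOP (hC5a : C5a_stmt) (hCLS : CLS_stmt) (hTPR : Pool.Agent.FI.TPR_stmt) : NOP_stmt := by
  intro p M hM G _ _ χ hχ R hR hRn y hy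
  have hF : Fact p.Prime := ⟨hM.pr⟩
  by_contra hyR
  obtain ⟨c1, -, c3, c4, c5, -, -, -, -⟩ := hCLS G (⊤ : Subgroup G) y
  have hχ' : χ ∈ IrrOn (⊤ : Subgroup G) := by
    rw [(hTPR p M hM G).1]
    exact hχ
  have h1 : Mcong M (cc χ (cls (⊤ : Subgroup G) y)) 0 := by
    refine hC5a G p M hM.max hM.mem R ⊤ le_top (by rw [hRn]) hR χ hχ' (cls (⊤ : Subgroup G) y) c1 c3 ?_
    intro x hx
    rcases c5 x with h | h
    · exact h
    · exfalso
      obtain ⟨l, -, hl⟩ := (c4 x).mp h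
      rw [← hl, NOP_nz (N := (⊤ : Subgroup G)) (by rw [hRn]) (Subgroup.mem_top l)] at hx
      exact hyR hx
  have h2 := InM.of_mcong hM h1
  rw [sub_zero] at h2
  exact hy h2

end Pool.Agent.NAB
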