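import Mathlib
import Pool.Agent.helper37.NA.Spec

/-!
# NUB (MP_baa4d7_al, theorem NA): unit classes of the same block, and conjugation
-/

set_option autoImplicit false

namespace Pool.Agent.NAB

open Pool.Agent.helper58.DC Pool.Agent.DI Pool.Agent.GR Pool.Agent.OB Pool.Agent.DR Pool.Agent.FI Pool.Agent.FI3 Pool.Agent.FI4 Pool.Agent.FI4I Pool.Agent.LE Pool.Agent.L5

theorem NUB_order {G : Type} [Group G] (l z : G) : orderOf (l * z * l⁻¹) = orderOf z := by
  have h := orderOf_injective (MulAut.conj l).toMonoidHom (MulAut.conj l).injective z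
  exact h

theorem NUB (hNEG : NEG_stmt) (hSBI : SBI_stmt) (hCJG : CJG_stmt) (hSYL : SYL_stmt) (hCLS : CLS_stmt) : NUB_stmt := by
  intro p e m M hM G _ _ L ψ z x hU
  have hF : Fact p.Prime := ⟨hM.pr⟩
  have hzx : z * x ∈ L := L.mul_mem hU.zm hU.xm
  obtain ⟨s1, s2, s3, s4, s5, s6, s7, s8, s9⟩ := hSYL p G
  have hco : ∀ g : G, g * z * g⁻¹ * (g * x * g⁻¹) = g * x * g⁻¹ * (g * z * g⁻¹) := by
    intro g
    have e1 : g * z * g⁻¹ * (g * x * g⁻¹) = g * (z * x) * g⁻¹ := by group
    have e2 : g * x * g⁻¹ * (g * z * g⁻¹) = g * (x * z) * g⁻¹ := by group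
    rw [e1, e2, hU.co]
  have hprod : ∀ g : G, g * z * g⁻¹ * (g * x * g⁻¹) = g * (z * x) * g⁻¹ := by
    intro g
    group
  refine ⟨fun ψ' hSB => ?_, fun g => ?_, fun l hl => ?_⟩
  · exact
      { pe := hU.pe
        re := hU.re
        co := hU.co
        zm := hU.zm
        xm := hU.xm
        od := hU.od
        ne := by
          rw [← (hSBI p M hM G L ψ ψ' hSB).2 (z * x) hzx]
          exact hU.ne
        cd := hU.cd }
  · obtain ⟨-, -, j3, -, -, -, -, -, j9⟩ := hCJG G M p g L
    exact
      { pe := (s9 z g).2 hU.pe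
        re := (s9 x g).1 hU.re
        co := hco g
        zm := by
          rw [mem_cjS]
          have e1 : g⁻¹ * (g * z * g⁻¹) * g = z := by group
          rw [e1]
          exact hU.zm
        xm := by
          rw [mem_cjS]
          have e1 : g⁻¹ * (g * x * g⁻¹) * g = x := by group
          rw [e1]
          exact hU.xm
        od := by rw [NUB_order]; exact hU.od
        ne := by
          rw [hprod g]
          have e1 := j3 ψ (z * x)
          change ¬ InM M (cc (funMap (MulAut.conj g) ψ) (cls (L.map (MulAut.conj g).toMonoidHom) (g * (z * x) * g⁻¹)))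
          rw [e1]
          exact hU.ne
        cd := by
          rw [hprod g]
          have e1 := (j9 ⊥ _ (z * x) rfl).2
          change pp p (Cz (L.map (MulAut.conj g).toMonoidHom) (g * (z * x) * g⁻¹)) ≤ _
          rw [← e1, (s5 (Cz L (z * x)) g).1]
          exact hU.cd }
  · exact
      { pe := (s9 z l).2 hU.pe
        re := (s9 x l).1 hU.re
        co := hco l
        zm := L.mul_mem (L.mul_mem hl hU.zm) (L.inv_mem hl)
        xm := L.mul_mem (L.mul_mem hl hU.xm) (L.inv_mem hl)
        od := by rw [NUB_order]; exact hU.od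
        ne := by
          rw [hprod l, (hCLS G L (z * x)).2.2.2.2.2.1 l hl]
          exact hU.ne
        cd := by
          rw [hprod l, (s6 L (z * x) l hl).2]
          exact hU.cd }

end Pool.Agent.NAB
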