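import Mathlib
import Pool.Agent.helper37.NA.Spec

/-!
# NUH (MP_baa4d7_al, theorem NA): heredity of unit classes
-/

set_option autoImplicit false

namespace Pool.Agent.NAB

open Pool.Agent.helper58.DC Pool.Agent.DI Pool.Agent.GR Pool.Agent.OB Pool.Agent.DR Pool.Agent.FI Pool.Agent.FI3 Pool.Agent.FI4 Pool.Agent.FI4I Pool.Agent.LE Pool.Agent.L5

theorem NUH_order {G : Type} [Group G] (l z : G) : orderOf (l * z * l⁻¹) = orderOf z := by
  have h := orderOf_injective (MulAut.conj l).toMonoidHom (MulAut.conj l).injective z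
  exact h

theorem NUH (hNEG : NEG_stmt) (hSBI : SBI_stmt) (hDCM : DCM_stmt) (hCLS : CLS_stmt) (hSYL : SYL_stmt) : NUH_stmt := by
  intro p e m M hM G _ _ L K hKL η hη ψ z x hSB hU
  have hF : Fact p.Prime := ⟨hM.pr⟩
  have hzx : z * x ∈ L := L.mul_mem hU.zm hU.xm
  obtain ⟨c1, c2, c3, c4, c5, c6, c7, -, -⟩ := hCLS G L (z * x)
  have h1 : ¬ InM M (cc η (cls L (z * x))) := by
    rw [(hSBI p M hM G L η ψ hSB).2 (z * x) hzx]
    exact hU.ne
  have h2 : ∃ w : G, ¬ InM M (cls L (z * x) w) ∧ ¬ InM M (cc η (cls K w)) := by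
    by_contra hcon
    push Not at hcon
    refine h1 (((hDCM G K M p hM).1 η (cls L (z * x)) (fun l hl y => c1 l (hKL hl) y)
      (fun y => IntAt.of_isIntegral hM (c3 y))
      (fun y => IntAt.of_isIntegral hM ((hCLS G K y).2.2.2.2.2.2.2.2 K le_rfl η hη))).2 fun y => ?_)
    by_cases hy : InM M (cls L (z * x) y)
    · exact Or.inl hy
    · exact Or.inr (hcon y hy)
  obtain ⟨w, hw1, hw2⟩ := h2
  have h3 : cls L (z * x) w = 1 := by
    rcases c5 w with h | h
    · exfalso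
      rw [h] at hw1
      exact hw1 (InM.zero hM)
    · exact h
  obtain ⟨l, hl, hlw⟩ := (c4 w).mp h3
  have hwK : w ∈ K := by
    by_contra hwK
    rw [(hCLS G K w).2.2.2.2.2.2.1 η hη.1 hwK] at hw2
    exact hw2 (InM.zero hM)
  have hprod : l * z * l⁻¹ * (l * x * l⁻¹) = w := by
    rw [← hlw]
    group
  obtain ⟨s1, s2, s3, s4, s5, s6, s7, s8, s9⟩ := hSYL p G
  have hpe : PEl p (l * z * l⁻¹) := (s9 z l).2 hU.pe
  have hre : PReg p (l * x * l⁻¹) := (s9 x l).1 hU.re
  have hco : l * z * l⁻¹ * (l * x * l⁻¹) = l * x * l⁻¹ * (l * z * l⁻¹) := by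
    have e1 : l * z * l⁻¹ * (l * x * l⁻¹) = l * (z * x) * l⁻¹ := by group
    have e2 : l * x * l⁻¹ * (l * z * l⁻¹) = l * (x * z) * l⁻¹ := by group
    rw [e1, e2, hU.co]
  have hmem := ((hNEG p e hM.pr G (l * z * l⁻¹)).2.2.2.1 (l * x * l⁻¹) hpe hre hco K).2.2.2
    (by rw [hprod]; exact hwK)
  refine ⟨l, hl, ?_⟩
  exact
    { pe := hpe
      re := hre
      co := hco
      zm := hmem.1
      xm := hmem.2
      od := by rw [NUH_order]; exact hU.od
      ne := by rw [hprod]; exact hw2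
      cd := by
        rw [hprod]
        have h4 : Cz K w ≤ Cz L w := inf_le_inf_right _ hKL
        refine (s4 _ _ h4).trans ?_
        rw [← hlw, (s6 L (z * x) l hl).2]
        exact hU.cd }

end Pool.Agent.NAB
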